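import Pool.Agent.H8.Stra4

/-! Roberson's question: a semiring-homomorphic invariant not multiplicative under the
lexicographic product. -/

namespace Pool.Agent.Results.MP_4c8f29_co.NotMult

/-- a finite simple graph (the vertex set may be empty) -/
structure FG where
  V : Type
  fin : Finite V
  G : SimpleGraph V

/-- the join -/
def join (A B : FG) : FG where
  V := A.V ⊕ B.V
  fin := by have := A.fin; have := B.fin; infer_instance
  G :=
    { Adj := fun x y => match x, y with
        | .inl a, .inl a' => A.G.Adj a a'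
        | .inr b, .inr b' => B.G.Adj b b'
        | _, _ => True
      symm := ⟨by rintro (a | a) (b | b) h <;> first | exact h.symm | trivial⟩
      loopless := ⟨by rintro (a | a) h <;> exact h.ne rfl⟩ }

/-- the disjunctive product -/
def disj (A B : FG) : FG where
  V := A.V × B.V
  fin := by have := A.fin; have := B.fin; infer_instance
  G :=
    { Adj := fun x y => A.G.Adj x.1 y.1 ∨ B.G.Adj x.2 y.2
      symm := ⟨fun _ _ h => h.imp SimpleGraph.Adj.symm SimpleGraph.Adj.symm⟩
      loopless := ⟨fun _ h => h.elim (fun h => h.ne rfl) fun h => h.ne rfl⟩ }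

/-- the lexicographic product -/
def lex (A B : FG) : FG where
  V := A.V × B.V
  fin := by have := A.fin; have := B.fin; infer_instance
  G :=
    { Adj := fun x y => A.G.Adj x.1 y.1 ∨ (x.1 = y.1 ∧ B.G.Adj x.2 y.2)
      symm := ⟨fun _ _ h => h.imp SimpleGraph.Adj.symm fun h => ⟨h.1.symm, h.2.symm⟩⟩
      loopless := ⟨fun _ h => h.elim (fun h => h.ne rfl) fun h => h.2.ne rfl⟩ }

/-- the complete graph on `n` vertices -/
def K (n : ℕ) : FG := ⟨Fin n, inferInstance, ⊤⟩

/-- semiring-homomorphic graph invariants (monotonicity makes them isomorphism invariant) -/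
structure IsInv (η : FG → ℝ) : Prop where
  nonneg : ∀ G, 0 ≤ η G
  one : η (K 1) = 1
  mono : ∀ G H : FG, Nonempty (G.G →g H.G) → η G ≤ η H
  add : ∀ G H, η (join G H) = η G + η H
  mul : ∀ G H, η (disj G H) = η G * η H

theorem result : ∃ η : FG → ℝ, IsInv η ∧ ∃ (G : FG) (d : ℕ), η (lex G (K d)) < η G * η (K d) := by
  obtain ⟨η, h1, h2, h3, h4, h5, G, D, h6⟩ := Pool.Agent.H8.Stra.main
  let t : FG → Pool.Agent.H8.Stra.FG := fun A => @Pool.Agent.H8.Stra.FG.mk A.V A.fin A.G
  have e : ∀ A B, η (t (join A B)) = η ((t A).join (t B)) := fun A B =>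
    le_antisymm
      (h3 _ _ (Pool.Agent.H8.Stra.FG.hom_of id (by rintro (a | a) (b | b) h <;> exact h)))
      (h3 _ _ (Pool.Agent.H8.Stra.FG.hom_of id (by rintro (a | a) (b | b) h <;> exact h)))
  exact ⟨fun A => η (t A), ⟨fun A => h1 _, h2, fun A B h => h3 _ _ h,
    fun A B => (e A B).trans (h4 (t A) (t B)),
    fun A B => h5 (t A) (t B)⟩, ⟨G.V, G.fin, G.G⟩, D, h6⟩

end Pool.Agent.Results.MP_4c8f29_co.NotMult
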